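import Pool.Agent.H295R2.Beu.Defs
import Pool.Agent.Helper240.ZU.A1

/-!
# The Mellin transform of the fractional part: task A3
-/

set_option autoImplicit false

open MeasureTheory Filter Topology Set Complex

namespace Pool.Agent.H959R2.Beu

theorem near_zero (s : ℂ) (h1 : s.re < 1) :
    IntegrableOn (fun v : ℝ => ((Int.fract v : ℝ) : ℂ) * (v : ℂ) ^ (-s - 1)) (Ioc 0 1) ∧
    ∫ v in Ioc (0:ℝ) 1, ((Int.fract v : ℝ) : ℂ) * (v : ℂ) ^ (-s - 1) = 1 / (1 - s) := by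
  have hr : -1 < (-s).re := by simp only [neg_re]; linarith
  have hii : IntervalIntegrable (fun v : ℝ => (v : ℂ) ^ (-s)) volume 0 1 :=
    intervalIntegral.intervalIntegrable_cpow' hr
  have hio : IntegrableOn (fun v : ℝ => (v : ℂ) ^ (-s)) (Ioc 0 1) :=
    (intervalIntegrable_iff_integrableOn_Ioc_of_le zero_le_one).1 hii
  have hval : ∫ v in Ioc (0:ℝ) 1, (v : ℂ) ^ (-s) = 1 / (1 - s) := by
    rw [← intervalIntegral.integral_of_le zero_le_one, integral_cpow (Or.inl hr)]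
    have hne : -s + 1 ≠ 0 := by
      intro h
      have h2 : (-s + 1).re = 0 := by rw [h]; simp
      simp only [add_re, neg_re, one_re] at h2
      linarith
    have e : (1:ℂ) - s = -s + 1 := by ring
    rw [e, ofReal_one, one_cpow, ofReal_zero, zero_cpow hne, sub_zero]
  have hae : (fun v : ℝ => ((Int.fract v : ℝ) : ℂ) * (v : ℂ) ^ (-s - 1)) =ᵐ[volume.restrict (Ioc 0 1)]
      (fun v : ℝ => (v : ℂ) ^ (-s)) := by
    have h3 : ∀ᵐ v : ℝ ∂(volume.restrict (Ioc (0:ℝ) 1)), v ≠ 1 := by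
      have h4 : ∀ᵐ v : ℝ, v ≠ 1 := by
        rw [ae_iff]
        simp
      exact ae_restrict_of_ae h4
    filter_upwards [h3, ae_restrict_mem measurableSet_Ioc] with v hv1 hv
    have hv0 : 0 < v := hv.1
    have hlt : v < 1 := lt_of_le_of_ne hv.2 hv1
    have hfr : Int.fract v = v := Int.fract_eq_self.2 ⟨hv0.le, hlt⟩
    rw [hfr]
    have hvc : (v : ℂ) ≠ 0 := by exact_mod_cast hv0.ne'
    rw [cpow_sub _ _ hvc, cpow_one]
    field_simp
  exact ⟨hio.congr_fun_ae hae.symm, by rw [integral_congr_ae hae, hval]⟩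

theorem base (s : ℂ) (h0 : 0 < s.re) (h1 : s.re < 1) :
    IntegrableOn (fun v : ℝ => ((Int.fract v : ℝ) : ℂ) * (v : ℂ) ^ (-s - 1)) (Ioi 0) ∧
    ∫ v in Ioi (0:ℝ), ((Int.fract v : ℝ) : ℂ) * (v : ℂ) ^ (-s - 1) = -(riemannZeta s / s) := by
  obtain ⟨hi0, hv0⟩ := near_zero s h1
  have hi1 := ZU.J_a1.zf_int 1 one_pos s h0
  have hun : Ioi (0:ℝ) = Ioc 0 1 ∪ Ioi 1 := (Ioc_union_Ioi_eq_Ioi zero_le_one).symm
  refine ⟨?_, ?_⟩
  · rw [hun]
    exact hi0.union hi1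
  · have hs1 : s ≠ 1 := by
      intro h
      rw [h] at h1
      simp at h1
    have hs0 : s ≠ 0 := by
      intro h
      rw [h] at h0
      simp at h0
    have hz := ZU.J_a1.zf_one s h0 hs1
    have hne : s - 1 ≠ 0 := sub_ne_zero.2 hs1
    have hne' : 1 - s ≠ 0 := sub_ne_zero.2 hs1.symm
    rw [hun, setIntegral_union (Ioc_disjoint_Ioi le_rfl) measurableSet_Ioi hi0 hi1, hv0, hz]
    field_simp
    ring

theorem fractMellin : Pool.Agent.H295R2.Beu.FractMellin := by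
  intro s h0 h1 t ht
  obtain ⟨hi, hv⟩ := base s h0 h1
  have htc : (t : ℂ) ≠ 0 := by exact_mod_cast ht.ne'
  have hcongr : ∀ v ∈ Ioi (0:ℝ), ((Int.fract (t * v) : ℝ) : ℂ) * (v : ℂ) ^ (-s - 1) =
      (t : ℂ) ^ (s + 1) * (((Int.fract (t * v) : ℝ) : ℂ) * ((t * v : ℝ) : ℂ) ^ (-s - 1)) := by
    intro v hv
    have e1 : ((t * v : ℝ) : ℂ) ^ (-s - 1) = (t : ℂ) ^ (-s - 1) * (v : ℂ) ^ (-s - 1) := by
      push_cast
      exact mul_cpow_ofReal_nonneg ht.le (le_of_lt hv) _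
    have e2 : (t : ℂ) ^ (s + 1) * (t : ℂ) ^ (-s - 1) = 1 := by
      rw [← cpow_add _ _ htc]
      have : s + 1 + (-s - 1) = 0 := by ring
      rw [this, cpow_zero]
    rw [e1]
    have e3 : (t : ℂ) ^ (s + 1) * (((Int.fract (t * v) : ℝ) : ℂ) *
        ((t : ℂ) ^ (-s - 1) * (v : ℂ) ^ (-s - 1))) =
        ((t : ℂ) ^ (s + 1) * (t : ℂ) ^ (-s - 1)) *
          (((Int.fract (t * v) : ℝ) : ℂ) * (v : ℂ) ^ (-s - 1)) := by ring
    rw [e3, e2, one_mul]
  have hint : IntegrableOn (fun v : ℝ => ((Int.fract (t * v) : ℝ) : ℂ) * ((t * v : ℝ) : ℂ) ^ (-s - 1))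
      (Ioi 0) := by
    have h := (integrableOn_Ioi_comp_mul_left_iff
      (fun v : ℝ => ((Int.fract v : ℝ) : ℂ) * (v : ℂ) ^ (-s - 1)) 0 ht).2
    rw [mul_zero] at h
    exact h hi
  refine ⟨?_, ?_⟩
  · refine IntegrableOn.congr_fun (hint.const_mul ((t : ℂ) ^ (s + 1))) ?_ measurableSet_Ioi
    intro v hv
    exact (hcongr v hv).symm
  · rw [setIntegral_congr_fun measurableSet_Ioi hcongr, integral_const_mul]
    have h := integral_comp_mul_left_Ioi
      (fun v : ℝ => ((Int.fract v : ℝ) : ℂ) * (v : ℂ) ^ (-s - 1)) 0 ht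
    rw [mul_zero, hv] at h
    rw [h, cpow_add _ _ htc, cpow_one, real_smul, ofReal_inv]
    field_simp

end Pool.Agent.H959R2.Beu
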